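import Pool.Agent.EVF.StmtsF

/-!
# EVF, row ALM: calculus of one hundred percent of a weighted box
-/

set_option autoImplicit false

namespace Pool.Agent.EVF.H64

/-- a larger property has fewer exceptions -/
lemma almostAll_mono (hcard : CardStmt) {k : ℕ} {W : Fin k → ℕ}
    {P Q : ℕ → (Fin k → ℤ) → Prop} (B₁ : ℕ) (hP : AlmostAll W P)
    (h : ∀ B : ℕ, B₁ ≤ B → ∀ t ∈ Box W B, P B t → Q B t) : AlmostAll W Q := by
  intro ε hε
  obtain ⟨B₀, hB₀⟩ := hP ε hε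
  refine ⟨max B₀ B₁, fun B hB => ?_⟩
  refine le_trans ?_ (hB₀ B ((le_max_left _ _).trans hB))
  have hfin : {t : Fin k → ℤ | t ∈ Box W B ∧ ¬ P B t}.Finite :=
    (hcard k W B).1.subset fun t ht => ht.1
  have hsub : {t : Fin k → ℤ | t ∈ Box W B ∧ ¬ Q B t} ⊆ {t | t ∈ Box W B ∧ ¬ P B t} :=
    fun t ht => ⟨ht.1, fun hp => ht.2 (h B ((le_max_right _ _).trans hB) t ht.1 hp)⟩
  exact_mod_cast Set.ncard_le_ncard hsub hfin

/-- conjunction -/
lemma almostAll_and (hcard : CardStmt) {k : ℕ} {W : Fin k → ℕ}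
    {P Q : ℕ → (Fin k → ℤ) → Prop} (hP : AlmostAll W P) (hQ : AlmostAll W Q) :
    AlmostAll W (fun B t => P B t ∧ Q B t) := by
  classical
  intro ε hε
  obtain ⟨B₀, hB₀⟩ := hP (ε / 2) (by linarith)
  obtain ⟨B₁, hB₁⟩ := hQ (ε / 2) (by linarith)
  refine ⟨max B₀ B₁, fun B hB => ?_⟩
  have h1 := hB₀ B ((le_max_left _ _).trans hB)
  have h2 := hB₁ B ((le_max_right _ _).trans hB)
  have hfin : ({t : Fin k → ℤ | t ∈ Box W B ∧ ¬ P B t} ∪
      {t : Fin k → ℤ | t ∈ Box W B ∧ ¬ Q B t}).Finite :=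
    (hcard k W B).1.subset fun t ht => ht.elim (fun h => h.1) fun h => h.1
  have hsub : {t : Fin k → ℤ | t ∈ Box W B ∧ ¬ (P B t ∧ Q B t)} ⊆
      {t | t ∈ Box W B ∧ ¬ P B t} ∪ {t | t ∈ Box W B ∧ ¬ Q B t} := by
    rintro t ⟨ht, hn⟩
    by_cases hp : P B t
    · exact Or.inr ⟨ht, fun hq => hn ⟨hp, hq⟩⟩
    · exact Or.inl ⟨ht, hp⟩
  have h3 : ({t : Fin k → ℤ | t ∈ Box W B ∧ ¬ (P B t ∧ Q B t)}.ncard : ℝ) ≤
      ({t : Fin k → ℤ | t ∈ Box W B ∧ ¬ P B t}.ncard : ℝ) +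
        ({t : Fin k → ℤ | t ∈ Box W B ∧ ¬ Q B t}.ncard : ℝ) := by
    exact_mod_cast (Set.ncard_le_ncard hsub hfin).trans (Set.ncard_union_le _ _)
  calc ({t : Fin k → ℤ | t ∈ Box W B ∧ ¬ (P B t ∧ Q B t)}.ncard : ℝ)
      ≤ ε / 2 * (B : ℝ) ^ (∑ l, W l) + ε / 2 * (B : ℝ) ^ (∑ l, W l) :=
        h3.trans (add_le_add h1 h2)
    _ = ε * (B : ℝ) ^ (∑ l, W l) := by ring

/-- ALM -/
theorem alm (hcard : CardStmt) : AlmStmt := by
  intro k W
  refine ⟨fun P Q hP hQ => almostAll_and hcard hP hQ,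
    fun P Q B₁ hP h => almostAll_mono hcard B₁ hP h, ?_⟩
  intro m
  induction m with
  | zero =>
    intro P _ ε hε
    refine ⟨0, fun B _ => ?_⟩
    have h1 : {t : Fin k → ℤ | t ∈ Box W B ∧ ¬ ∀ j : Fin 0, P j B t} = ∅ := by
      ext t
      refine ⟨fun h => absurd (fun j : Fin 0 => j.elim0) h.2, fun h => absurd h ?_⟩
      exact Set.notMem_empty t
    rw [h1, Set.ncard_empty]
    have h2 : (0 : ℝ) ≤ ε * (B : ℝ) ^ (∑ l, W l) := by positivity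
    exact_mod_cast h2
  | succ m ih =>
    intro P hP
    have h1 := ih (fun j => P j.succ) fun j => hP j.succ
    refine almostAll_mono hcard 0 (almostAll_and hcard (hP 0) h1) fun B _ t _ h => ?_
    intro j
    exact Fin.cases h.1 (fun i => h.2 i) j

end Pool.Agent.EVF.H64
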